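import Pool.Agent.K1H30.SP.Final
import Pool.Agent.K1H30.SP.Nice

/-! Question 2: a translation surface whose product flow has, for almost every pair of directions,
a nonzero absolutely continuous spectral component. -/

open Set MeasureTheory Filter

set_option autoImplicit false

namespace Pool.Agent.Results.MP_c63e80_an.ProductAC

open Pool.Agent.K1H30.SP

variable {S : Type} [Fintype S] [MeasurableSpace S]

/-- The finite measure `ρ` on the line is the spectral measure of the function `F` for the Koopman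
flow `f ↦ f ∘ G^t` of the product flow `G^t` in the directions `θ, φ`:
`⟨U^t F, F⟩ = ∫ e^{i t x} dρ(x)` for all real `t`. -/
def IsSpectralMeasure (X : GluedSurface S) (θ φ : ℝ) (F : X.Pt × X.Pt → ℂ) (ρ : Measure ℝ) : Prop :=
  IsFiniteMeasure ρ ∧ ∀ t : ℝ,
    ∫ q, F (X.prodFlow θ φ t q) * (starRingEnd ℂ) (F q) ∂(X.area.prod X.area) =
      ∫ x : ℝ, Complex.exp (Complex.I * t * x) ∂ρ

/-- The product flow is spectrally singular modulo constants: the spectral measure of every square
integrable function of mean zero is singular with respect to Lebesgue measure. -/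
def SpectrallySingular (X : GluedSurface S) (θ φ : ℝ) : Prop :=
  ∀ F : X.Pt × X.Pt → ℂ, MemLp F 2 (X.area.prod X.area) →
    ∫ q, F q ∂(X.area.prod X.area) = 0 →
    ∀ ρ : Measure ℝ, IsSpectralMeasure X θ φ F ρ → ρ ⟂ₘ volume

theorem aux (hN : S_NICE) : ∃ X : GluedSurface (Bool × Bool), ∀ᵐ p : ℝ × ℝ,
    ¬ SpectrallySingular X p.1 p.2 ∧
    ∃ (F : X.Pt × X.Pt → ℂ) (ρ : Measure ℝ), Measurable F ∧ (∀ q, ‖F q‖ = 1) ∧
      ∫ q, F q ∂(X.area.prod X.area) = 0 ∧ IsSpectralMeasure X p.1 p.2 F ρ ∧
      IsProbabilityMeasure ρ ∧ ρ ≪ volume := by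
  obtain ⟨N, hN1, hN2, hpar⟩ := par3
  obtain ⟨X, hX⟩ := main hpar (BJ_le hN)
  refine ⟨X, ?_⟩
  filter_upwards [hX] with p hp
  obtain ⟨h0, h, hpos, hint, hchar⟩ := hp
  obtain ⟨F, hF⟩ : ∃ F : X.Pt × X.Pt → ℂ, F = fun q => ((FF X q : ℝ) : ℂ) := ⟨_, rfl⟩
  have hFm : Measurable F := by
    rw [hF]
    exact Complex.measurable_ofReal.comp FF_meas
  have hF1 : ∀ q, ‖F q‖ = 1 := fun q => by
    rw [hF]
    simp only [Complex.norm_real, Real.norm_eq_abs, FF_abs]
  have hF0 : ∫ q, F q ∂(X.area.prod X.area) = 0 := by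
    rw [hF, integral_complex_ofReal, FF_mean, Complex.ofReal_zero]
  obtain ⟨ρ, hρ⟩ : ∃ ρ : Measure ℝ, ρ = volume.withDensity fun x => ENNReal.ofReal (h x) := ⟨_, rfl⟩
  have hac : ρ ≪ volume := by
    rw [hρ]
    exact withDensity_absolutelyContinuous _ _
  have hfin : IsFiniteMeasure ρ := by
    rw [hρ]
    exact isFiniteMeasure_withDensity_ofReal hint.hasFiniteIntegral
  have hspec : IsSpectralMeasure X p.1 p.2 F ρ := by
    refine ⟨hfin, fun t => ?_⟩
    have h1 : ∫ q, F (X.prodFlow p.1 p.2 t q) * (starRingEnd ℂ) (F q) ∂(X.area.prod X.area) =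
        ((∫ q, FF X (X.prodFlow p.1 p.2 t q) * FF X q ∂(X.area.prod X.area) : ℝ) : ℂ) := by
      rw [← integral_complex_ofReal]
      refine integral_congr_ae (Eventually.of_forall fun q => ?_)
      rw [hF]
      simp only [Complex.conj_ofReal, Complex.ofReal_mul]
    rw [h1, hchar t, hρ]
    rw [integral_withDensity_eq_integral_toReal_smul₀ hint.aestronglyMeasurable.aemeasurable.ennreal_ofReal
      (Eventually.of_forall fun x => ENNReal.ofReal_lt_top)]
    refine integral_congr_ae (Eventually.of_forall fun x => ?_)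
    simp only [ENNReal.toReal_ofReal (hpos x), Complex.real_smul]
  have hone : ρ univ = 1 := by
    rw [hρ, withDensity_apply _ MeasurableSet.univ, Measure.restrict_univ,
      ← ofReal_integral_eq_lintegral_ofReal hint (Eventually.of_forall hpos)]
    have h2 := hchar 0
    rw [h0] at h2
    have h3 : ∫ x : ℝ, ((h x : ℝ) : ℂ) * Complex.exp (Complex.I * ((0 : ℝ) : ℂ) * x) =
        ((∫ x, h x : ℝ) : ℂ) := by
      rw [← integral_complex_ofReal]
      refine integral_congr_ae (Eventually.of_forall fun x => ?_)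
      simp
    rw [h3] at h2
    rw [← Complex.ofReal_injective h2, ENNReal.ofReal_one]
  refine ⟨fun hs => ?_, F, ρ, hFm, hF1, hF0, hspec, ⟨hone⟩, hac⟩
  have hmem : MemLp F 2 (X.area.prod X.area) :=
    MemLp.of_bound hFm.aestronglyMeasurable 1 (Eventually.of_forall fun q => (hF1 q).le)
  have h4 := hs F hmem hF0 ρ hspec
  have h5 : ρ = 0 := Measure.eq_zero_of_absolutelyContinuous_of_mutuallySingular hac h4
  rw [h5] at hone
  simp at hone

/-- There is a compact connected translation surface `X` (a four-fold cover of a flat torus) such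
that for almost every pair of directions the product flow is not spectrally singular modulo
constants. -/
theorem result : ∃ X : GluedSurface (Bool × Bool), ∀ᵐ p : ℝ × ℝ,
    ¬ SpectrallySingular X p.1 p.2 ∧
    ∃ (F : X.Pt × X.Pt → ℂ) (ρ : Measure ℝ), Measurable F ∧ (∀ q, ‖F q‖ = 1) ∧
      ∫ q, F q ∂(X.area.prod X.area) = 0 ∧ IsSpectralMeasure X p.1 p.2 F ρ ∧
      IsProbabilityMeasure ρ ∧ ρ ≪ volume :=
  aux t_NICE

end Pool.Agent.Results.MP_c63e80_an.ProductAC
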